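import Pool.Agent.H736R5.MM.Final
import Pool.Agent.H736R5.MM.M00
import Pool.Agent.H736R5.MM.M01
import Pool.Agent.H736R5.MM.M02
import Pool.Agent.H736R5.MM.M03
import Pool.Agent.H736R5.MM.M04
import Pool.Agent.H736R5.MM.M05
import Pool.Agent.H736R5.MM.M06
import Pool.Agent.H736R5.MM.M07
import Pool.Agent.H736R5.MM.M08
import Pool.Agent.H736R5.MM.M09
import Pool.Agent.H736R5.MM.M10
import Pool.Agent.H736R5.MM.M11

namespace H736R5.MM

theorem cov1 (x y : ℝ) : Good 1 22360 240000 x y := by
  have h : ∀ b ∈ ([] : List (ℕ × ℕ × ℕ)), BoxGood 1 22360 240000 b := by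
    intro b hb
    simp at hb
  replace h := r1_17 h
  replace h := r1_16 h
  replace h := r1_15 h
  replace h := r1_14 h
  replace h := r1_13 h
  replace h := r1_12 h
  replace h := r1_11 h
  replace h := r1_10 h
  replace h := r1_9 h
  replace h := r1_8 h
  replace h := r1_7 h
  replace h := r1_6 h
  replace h := r1_5 h
  replace h := r1_4 h
  replace h := r1_3 h
  replace h := r1_2 h
  replace h := r1_1 h
  replace h := r1_0 h
  exact good_all 1 22360 240000 (h _ (by simp)) (h _ (by simp)) x y

theorem cov2 (x y : ℝ) : Good 2 28284 240000 x y := by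
  have h : ∀ b ∈ ([] : List (ℕ × ℕ × ℕ)), BoxGood 2 28284 240000 b := by
    intro b hb
    simp at hb
  replace h := r2_38 h
  replace h := r2_37 h
  replace h := r2_36 h
  replace h := r2_35 h
  replace h := r2_34 h
  replace h := r2_33 h
  replace h := r2_32 h
  replace h := r2_31 h
  replace h := r2_30 h
  replace h := r2_29 h
  replace h := r2_28 h
  replace h := r2_27 h
  replace h := r2_26 h
  replace h := r2_25 h
  replace h := r2_24 h
  replace h := r2_23 h
  replace h := r2_22 h
  replace h := r2_21 h
  replace h := r2_20 h
  replace h := r2_19 h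
  replace h := r2_18 h
  replace h := r2_17 h
  replace h := r2_16 h
  replace h := r2_15 h
  replace h := r2_14 h
  replace h := r2_13 h
  replace h := r2_12 h
  replace h := r2_11 h
  replace h := r2_10 h
  replace h := r2_9 h
  replace h := r2_8 h
  replace h := r2_7 h
  replace h := r2_6 h
  replace h := r2_5 h
  replace h := r2_4 h
  replace h := r2_3 h
  replace h := r2_2 h
  replace h := r2_1 h
  replace h := r2_0 h
  exact good_all 2 28284 240000 (h _ (by simp)) (h _ (by simp)) x y

theorem cov3 (x y : ℝ) : Good 3 36055 240000 x y := by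
  have h : ∀ b ∈ ([] : List (ℕ × ℕ × ℕ)), BoxGood 3 36055 240000 b := by
    intro b hb
    simp at hb
  replace h := r3_37 h
  replace h := r3_36 h
  replace h := r3_35 h
  replace h := r3_34 h
  replace h := r3_33 h
  replace h := r3_32 h
  replace h := r3_31 h
  replace h := r3_30 h
  replace h := r3_29 h
  replace h := r3_28 h
  replace h := r3_27 h
  replace h := r3_26 h
  replace h := r3_25 h
  replace h := r3_24 h
  replace h := r3_23 h
  replace h := r3_22 h
  replace h := r3_21 h
  replace h := r3_20 h
  replace h := r3_19 h
  replace h := r3_18 h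
  replace h := r3_17 h
  replace h := r3_16 h
  replace h := r3_15 h
  replace h := r3_14 h
  replace h := r3_13 h
  replace h := r3_12 h
  replace h := r3_11 h
  replace h := r3_10 h
  replace h := r3_9 h
  replace h := r3_8 h
  replace h := r3_7 h
  replace h := r3_6 h
  replace h := r3_5 h
  replace h := r3_4 h
  replace h := r3_3 h
  replace h := r3_2 h
  replace h := r3_1 h
  replace h := r3_0 h
  exact good_all 3 36055 240000 (h _ (by simp)) (h _ (by simp)) x y

theorem cov4 (x y : ℝ) : Good 4 44721 240000 x y := by
  have h : ∀ b ∈ ([] : List (ℕ × ℕ × ℕ)), BoxGood 4 44721 240000 b := by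
    intro b hb
    simp at hb
  replace h := r4_154 h
  replace h := r4_153 h
  replace h := r4_152 h
  replace h := r4_151 h
  replace h := r4_150 h
  replace h := r4_149 h
  replace h := r4_148 h
  replace h := r4_147 h
  replace h := r4_146 h
  replace h := r4_145 h
  replace h := r4_144 h
  replace h := r4_143 h
  replace h := r4_142 h
  replace h := r4_141 h
  replace h := r4_140 h
  replace h := r4_139 h
  replace h := r4_138 h
  replace h := r4_137 h
  replace h := r4_136 h
  replace h := r4_135 h
  replace h := r4_134 h
  replace h := r4_133 h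
  replace h := r4_132 h
  replace h := r4_131 h
  replace h := r4_130 h
  replace h := r4_129 h
  replace h := r4_128 h
  replace h := r4_127 h
  replace h := r4_126 h
  replace h := r4_125 h
  replace h := r4_124 h
  replace h := r4_123 h
  replace h := r4_122 h
  replace h := r4_121 h
  replace h := r4_120 h
  replace h := r4_119 h
  replace h := r4_118 h
  replace h := r4_117 h
  replace h := r4_116 h
  replace h := r4_115 h
  replace h := r4_114 h
  replace h := r4_113 h
  replace h := r4_112 h
  replace h := r4_111 h
  replace h := r4_110 h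
  replace h := r4_109 h
  replace h := r4_108 h
  replace h := r4_107 h
  replace h := r4_106 h
  replace h := r4_105 h
  replace h := r4_104 h
  replace h := r4_103 h
  replace h := r4_102 h
  replace h := r4_101 h
  replace h := r4_100 h
  replace h := r4_99 h
  replace h := r4_98 h
  replace h := r4_97 h
  replace h := r4_96 h
  replace h := r4_95 h
  replace h := r4_94 h
  replace h := r4_93 h
  replace h := r4_92 h
  replace h := r4_91 h
  replace h := r4_90 h
  replace h := r4_89 h
  replace h := r4_88 h
  replace h := r4_87 h
  replace h := r4_86 h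
  replace h := r4_85 h
  replace h := r4_84 h
  replace h := r4_83 h
  replace h := r4_82 h
  replace h := r4_81 h
  replace h := r4_80 h
  replace h := r4_79 h
  replace h := r4_78 h
  replace h := r4_77 h
  replace h := r4_76 h
  replace h := r4_75 h
  replace h := r4_74 h
  replace h := r4_73 h
  replace h := r4_72 h
  replace h := r4_71 h
  replace h := r4_70 h
  replace h := r4_69 h
  replace h := r4_68 h
  replace h := r4_67 h
  replace h := r4_66 h
  replace h := r4_65 h
  replace h := r4_64 h
  replace h := r4_63 h
  replace h := r4_62 h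
  replace h := r4_61 h
  replace h := r4_60 h
  replace h := r4_59 h
  replace h := r4_58 h
  replace h := r4_57 h
  replace h := r4_56 h
  replace h := r4_55 h
  replace h := r4_54 h
  replace h := r4_53 h
  replace h := r4_52 h
  replace h := r4_51 h
  replace h := r4_50 h
  replace h := r4_49 h
  replace h := r4_48 h
  replace h := r4_47 h
  replace h := r4_46 h
  replace h := r4_45 h
  replace h := r4_44 h
  replace h := r4_43 h
  replace h := r4_42 h
  replace h := r4_41 h
  replace h := r4_40 h
  replace h := r4_39 h
  replace h := r4_38 h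
  replace h := r4_37 h
  replace h := r4_36 h
  replace h := r4_35 h
  replace h := r4_34 h
  replace h := r4_33 h
  replace h := r4_32 h
  replace h := r4_31 h
  replace h := r4_30 h
  replace h := r4_29 h
  replace h := r4_28 h
  replace h := r4_27 h
  replace h := r4_26 h
  replace h := r4_25 h
  replace h := r4_24 h
  replace h := r4_23 h
  replace h := r4_22 h
  replace h := r4_21 h
  replace h := r4_20 h
  replace h := r4_19 h
  replace h := r4_18 h
  replace h := r4_17 h
  replace h := r4_16 h
  replace h := r4_15 h
  replace h := r4_14 h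
  replace h := r4_13 h
  replace h := r4_12 h
  replace h := r4_11 h
  replace h := r4_10 h
  replace h := r4_9 h
  replace h := r4_8 h
  replace h := r4_7 h
  replace h := r4_6 h
  replace h := r4_5 h
  replace h := r4_4 h
  replace h := r4_3 h
  replace h := r4_2 h
  replace h := r4_1 h
  replace h := r4_0 h
  exact good_all 4 44721 240000 (h _ (by simp)) (h _ (by simp)) x y

theorem cov5 (x y : ℝ) : Good 5 53851 240000 x y := by
  have h : ∀ b ∈ ([] : List (ℕ × ℕ × ℕ)), BoxGood 5 53851 240000 b := by
    intro b hb
    simp at hb
  replace h := r5_16 h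
  replace h := r5_15 h
  replace h := r5_14 h
  replace h := r5_13 h
  replace h := r5_12 h
  replace h := r5_11 h
  replace h := r5_10 h
  replace h := r5_9 h
  replace h := r5_8 h
  replace h := r5_7 h
  replace h := r5_6 h
  replace h := r5_5 h
  replace h := r5_4 h
  replace h := r5_3 h
  replace h := r5_2 h
  replace h := r5_1 h
  replace h := r5_0 h
  exact good_all 5 53851 240000 (h _ (by simp)) (h _ (by simp)) x y

theorem cov6 (x y : ℝ) : Good 6 63245 240000 x y := by
  have h : ∀ b ∈ ([] : List (ℕ × ℕ × ℕ)), BoxGood 6 63245 240000 b := by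
    intro b hb
    simp at hb
  replace h := r6_9 h
  replace h := r6_8 h
  replace h := r6_7 h
  replace h := r6_6 h
  replace h := r6_5 h
  replace h := r6_4 h
  replace h := r6_3 h
  replace h := r6_2 h
  replace h := r6_1 h
  replace h := r6_0 h
  exact good_all 6 63245 240000 (h _ (by simp)) (h _ (by simp)) x y

theorem cov7 (x y : ℝ) : Good 7 72800 240000 x y := by
  have h : ∀ b ∈ ([] : List (ℕ × ℕ × ℕ)), BoxGood 7 72800 240000 b := by
    intro b hb
    simp at hb
  replace h := r7_1 h
  replace h := r7_0 h
  exact good_all 7 72800 240000 (h _ (by simp)) (h _ (by simp)) x y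

theorem cov8 (x y : ℝ) : Good 8 82461 240000 x y := by
  have h : ∀ b ∈ ([] : List (ℕ × ℕ × ℕ)), BoxGood 8 82461 240000 b := by
    intro b hb
    simp at hb
  replace h := r8_1 h
  replace h := r8_0 h
  exact good_all 8 82461 240000 (h _ (by simp)) (h _ (by simp)) x y

theorem cov9 (x y : ℝ) : Good 9 92195 240000 x y := by
  have h : ∀ b ∈ ([] : List (ℕ × ℕ × ℕ)), BoxGood 9 92195 240000 b := by
    intro b hb
    simp at hb
  replace h := r9_0 h
  exact good_all 9 92195 240000 (h _ (by simp)) (h _ (by simp)) x y

theorem cov10 (x y : ℝ) : Good 10 101980 240000 x y := by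
  have h : ∀ b ∈ ([] : List (ℕ × ℕ × ℕ)), BoxGood 10 101980 240000 b := by
    intro b hb
    simp at hb
  replace h := r10_0 h
  exact good_all 10 101980 240000 (h _ (by simp)) (h _ (by simp)) x y

theorem cov11 (x y : ℝ) : Good 11 111803 240000 x y := by
  have h : ∀ b ∈ ([] : List (ℕ × ℕ × ℕ)), BoxGood 11 111803 240000 b := by
    intro b hb
    simp at hb
  replace h := r11_0 h
  exact good_all 11 111803 240000 (h _ (by simp)) (h _ (by simp)) x y

end H736R5.MM
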