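import Mathlib

/-!
Coverings of the torus by strips attached to elements of `ℤ[μ]`, `μ^2 = t μ + 1`.

For integers `q, p` put `m = |p^2 - t p q - q^2|`, the norm of `p - q μ`. We certify that every point
`(x, y)` of a box has some `(q, p)` with `m ≠ 0` and an integer `z` with
`m |q x + p y - z| < cn / cd`.
A box `(k, X, Y)` is `[X / 2^k, (X+1) / 2^k] × [Y / 2^k, (Y+1) / 2^k]`.
-/

namespace H736R5.MM

/-- the test for one box and one `(q, ±a)`; `r` is the value at the centre (times `M`, mod `M`). -/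
def chkc (cn cd q a m r M : ℕ) : Bool :=
  and (Nat.ble 1 m)
    (or (Nat.ble (Nat.succ (Nat.mul (Nat.mul (Nat.add r (Nat.add q a)) m) cd)) (Nat.mul cn M))
      (Nat.ble (Nat.succ (Nat.mul (Nat.mul (Nat.add (Nat.sub M r) (Nat.add q a)) m) cd))
        (Nat.mul cn M)))

def dist' (u v : ℕ) : ℕ := Nat.add (Nat.sub u v) (Nat.sub v u)

/-- sign `+` : `p = a`. -/
def chk0 (t cn cd q a k X Y : ℕ) : Bool :=
  chkc cn cd q a (dist' (Nat.mul a a) (Nat.add (Nat.mul t (Nat.mul a q)) (Nat.mul q q)))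
    (Nat.mod (Nat.add (Nat.mul q (Nat.succ (Nat.mul 2 X))) (Nat.mul a (Nat.succ (Nat.mul 2 Y))))
      (Nat.pow 2 (Nat.succ k))) (Nat.pow 2 (Nat.succ k))

/-- sign `-` : `p = -a`. -/
def chk1 (t cn cd q a k X Y : ℕ) : Bool :=
  chkc cn cd q a (dist' (Nat.add (Nat.mul a a) (Nat.mul t (Nat.mul a q))) (Nat.mul q q))
    (Nat.mod (Nat.add (Nat.mul q (Nat.succ (Nat.mul 2 X)))
        (Nat.mul a (Nat.mul (Nat.pred (Nat.pow 2 (Nat.succ k))) (Nat.succ (Nat.mul 2 Y)))))
      (Nat.pow 2 (Nat.succ k))) (Nat.pow 2 (Nat.succ k))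

/-- `e = q + 2^24 (a + 2^24 s)`. -/
def chk (t cn cd e k X Y : ℕ) : Bool :=
  cond (Nat.beq (Nat.div e 281474976710656) 0)
    (chk0 t cn cd (Nat.mod e 16777216) (Nat.mod (Nat.div e 16777216) 16777216) k X Y)
    (chk1 t cn cd (Nat.mod e 16777216) (Nat.mod (Nat.div e 16777216) 16777216) k X Y)

def beqBox (b b' : ℕ × ℕ × ℕ) : Bool :=
  and (Nat.beq b.1 b'.1) (and (Nat.beq b.2.1 b'.2.1) (Nat.beq b.2.2 b'.2.2))

def beqList : List (ℕ × ℕ × ℕ) → List (ℕ × ℕ × ℕ) → Bool
  | [], [] => true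
  | a :: l, b :: l' => and (beqBox a b) (beqList l l')
  | _, _ => false

/-- process `n` tokens of the packed list `code` (base `2^50`), with a stack of boxes. -/
def run (t cn cd : ℕ) : ℕ → ℕ → List (ℕ × ℕ × ℕ) → List (ℕ × ℕ × ℕ) → Bool
  | 0, _, st, st' => beqList st st'
  | _ + 1, _, [], _ => false
  | n + 1, code, (k, X, Y) :: st, st' =>
    match Nat.mod code 1125899906842624 with
    | 0 => run t cn cd n (Nat.div code 1125899906842624)
        ((Nat.succ k, Nat.mul 2 X, Nat.mul 2 Y) ::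
          (Nat.succ k, Nat.succ (Nat.mul 2 X), Nat.mul 2 Y) ::
          (Nat.succ k, Nat.mul 2 X, Nat.succ (Nat.mul 2 Y)) ::
          (Nat.succ k, Nat.succ (Nat.mul 2 X), Nat.succ (Nat.mul 2 Y)) :: st) st'
    | e + 1 => and (chk t cn cd e k X Y) (run t cn cd n (Nat.div code 1125899906842624) st st')

/-- the conclusion for a point. -/
def Good (t cn cd : ℕ) (x y : ℝ) : Prop :=
  ∃ q p z : ℤ, |q| ≤ 16777216 ∧ |p| ≤ 16777216 ∧ p ^ 2 - t * (p * q) - q ^ 2 ≠ 0 ∧
    ((|p ^ 2 - t * (p * q) - q ^ 2| : ℤ) : ℝ) * |(q : ℝ) * x + p * y - z| * cd < cn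

def BoxGood (t cn cd : ℕ) (b : ℕ × ℕ × ℕ) : Prop :=
  ∀ x y : ℝ, (b.2.1 : ℝ) ≤ x * 2 ^ b.1 → x * 2 ^ b.1 ≤ (b.2.1 : ℝ) + 1 →
    (b.2.2 : ℝ) ≤ y * 2 ^ b.1 → y * 2 ^ b.1 ≤ (b.2.2 : ℝ) + 1 → Good t cn cd x y

lemma chkc_sound (t cn cd q a m r M : ℕ) (p z : ℤ) (cx cy : ℤ) (hM : 0 < M)
    (hq : q ≤ 16777216) (ha : a ≤ 16777216)
    (hr : (r : ℤ) = q * cx + p * cy - z * M) (hrM : r ≤ M) (hp : |p| = a)
    (hm : |p ^ 2 - t * (p * q) - (q : ℤ) ^ 2| = m) (h : chkc cn cd q a m r M = true)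
    (x y : ℝ) (hx : |M * x - cx| ≤ 1) (hy : |M * y - cy| ≤ 1) : Good t cn cd x y := by
  unfold chkc at h
  rw [Bool.and_eq_true, Bool.or_eq_true, Nat.ble_eq, Nat.ble_eq, Nat.ble_eq] at h
  obtain ⟨h1, h2⟩ := h
  have hMr : (0 : ℝ) < M := by exact_mod_cast hM
  have hmr : (0 : ℝ) < m := by exact_mod_cast h1
  have hpr : |(p : ℝ)| = a := by exact_mod_cast hp
  have hrr : (r : ℝ) = q * cx + p * cy - z * M := by exact_mod_cast hr
  have hq0 : (0 : ℝ) ≤ q := by positivity
  have key : ∀ (w : ℤ) (D : ℝ), |(q : ℝ) * cx + p * cy - w * M| ≤ D →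
      (D + (q + a)) * m * cd < cn * M → Good t cn cd x y := by
    intro w D hD hlt
    refine ⟨q, p, w, ?_, ?_, ?_, ?_⟩
    · rw [abs_of_nonneg (by positivity)]; exact_mod_cast hq
    · rw [hp]; exact_mod_cast ha
    · intro h0
      rw [h0, abs_zero] at hm
      omega
    · rw [hm]
      have e1 : |(q : ℝ) * x + p * y - w| * M ≤ D + (q + a) := by
        have e2 : |(q : ℝ) * x + p * y - w| * M
            = |q * (M * x - cx) + p * (M * y - cy) + (q * cx + p * cy - w * M)| := by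
          rw [← abs_of_pos hMr, ← abs_mul, abs_of_pos hMr]
          congr 1
          ring
        rw [e2]
        have e3 : |(q : ℝ) * (M * x - cx)| ≤ q := by
          rw [abs_mul, abs_of_nonneg hq0]
          nlinarith
        have e4 : |(p : ℝ) * (M * y - cy)| ≤ a := by
          rw [abs_mul, hpr]
          have : (0 : ℝ) ≤ a := by positivity
          nlinarith
        calc |(q : ℝ) * (M * x - cx) + p * (M * y - cy) + (q * cx + p * cy - w * M)|
            ≤ |(q : ℝ) * (M * x - cx) + p * (M * y - cy)| + |(q : ℝ) * cx + p * cy - w * M| :=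
              abs_add_le _ _
          _ ≤ (|(q : ℝ) * (M * x - cx)| + |(p : ℝ) * (M * y - cy)|)
              + |(q : ℝ) * cx + p * cy - w * M| := by
              gcongr
              exact abs_add_le _ _
          _ ≤ (q + a) + D := by gcongr
          _ = D + (q + a) := by ring
      have e5 : ((m : ℤ) : ℝ) = m := by push_cast; rfl
      rw [e5]
      have e6 : ((m : ℝ) * |(q : ℝ) * x + p * y - w| * cd) * M < cn * M := by
        calc ((m : ℝ) * |(q : ℝ) * x + p * y - w| * cd) * M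
            = (|(q : ℝ) * x + p * y - w| * M) * m * cd := by ring
          _ ≤ (D + (q + a)) * m * cd := by gcongr
          _ < cn * M := hlt
      exact lt_of_mul_lt_mul_right e6 hMr.le
  rcases h2 with h2 | h2
  · refine key z r ?_ ?_
    · rw [← hrr, abs_of_nonneg (by positivity)]
    · have : (r + (q + a)) * m * cd < cn * M := h2
      exact_mod_cast this
  · refine key (z + 1) (M - r) ?_ ?_
    · have e7 : (q : ℝ) * cx + p * cy - ((z + 1 : ℤ) : ℝ) * M = r - M := by
        rw [hrr]; push_cast; ring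
      have hrM' : (r : ℝ) ≤ M := by exact_mod_cast hrM
      rw [e7, abs_of_nonpos (by linarith)]
      linarith
    · have : ((M - r) + (q + a)) * m * cd < cn * M := h2
      have h3 : ((M - r : ℕ) : ℝ) = (M : ℝ) - r := by rw [Nat.cast_sub hrM]
      have h4 : (((M - r : ℕ) : ℝ) + (q + a)) * m * cd < cn * M := by exact_mod_cast this
      rwa [h3] at h4

lemma dist'_eq (u v : ℕ) : (dist' u v : ℤ) = |(u : ℤ) - v| := by
  have : dist' u v = (u - v) + (v - u) := rfl
  rw [this]
  rcases le_total u v with h | h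
  · rw [Nat.sub_eq_zero_of_le h, abs_of_nonpos (by omega)]
    push_cast [Nat.cast_sub h]
    ring
  · rw [Nat.sub_eq_zero_of_le h, abs_of_nonneg (by omega)]
    push_cast [Nat.cast_sub h]
    ring

lemma box_cast (k X : ℕ) (x : ℝ) (h1 : (X : ℝ) ≤ x * 2 ^ k) (h2 : x * 2 ^ k ≤ (X : ℝ) + 1) :
    |((2 ^ (k + 1) : ℕ) : ℝ) * x - ((2 * X + 1 : ℤ) : ℝ)| ≤ 1 := by
  have : ((2 ^ (k + 1) : ℕ) : ℝ) * x - ((2 * X + 1 : ℤ) : ℝ) = 2 * (x * 2 ^ k) - (2 * X + 1) := by
    push_cast
    ring
  rw [this, abs_le]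
  constructor <;> linarith

lemma chk_sound (t cn cd e k X Y : ℕ) (h : chk t cn cd e k X Y = true) :
    BoxGood t cn cd (k, X, Y) := by
  intro x y hx1 hx2 hy1 hy2
  simp only at hx1 hx2 hy1 hy2
  have hM : 0 < 2 ^ (k + 1) := by positivity
  have hq : e % 16777216 ≤ 16777216 := (Nat.mod_lt _ (by norm_num)).le
  have ha : (e / 16777216) % 16777216 ≤ 16777216 := (Nat.mod_lt _ (by norm_num)).le
  have hx := box_cast k X x hx1 hx2
  have hy := box_cast k Y y hy1 hy2
  unfold chk at h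
  cases hs : Nat.beq (Nat.div e 281474976710656) 0
  · rw [hs, cond_false] at h
    set q := e % 16777216 with hqdef
    set a := (e / 16777216) % 16777216 with hadef
    have h' : chkc cn cd q a (dist' (a * a + t * (a * q)) (q * q))
      ((q * (2 * X + 1) + a * ((2 ^ (k + 1) - 1) * (2 * Y + 1))) % 2 ^ (k + 1)) (2 ^ (k + 1))
        = true := h
    refine chkc_sound t cn cd q a _ _ (2 ^ (k + 1)) (-(a : ℤ))
      (((q * (2 * X + 1) + a * ((2 ^ (k + 1) - 1) * (2 * Y + 1))) / 2 ^ (k + 1) : ℕ)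
        - (a : ℤ) * (2 * Y + 1))
      (2 * X + 1 : ℤ) (2 * Y + 1 : ℤ) hM hq ha ?_ (Nat.mod_lt _ hM).le ?_ ?_ h' x y hx hy
    · have h5 := Nat.mod_add_div (q * (2 * X + 1) + a * ((2 ^ (k + 1) - 1) * (2 * Y + 1)))
        (2 ^ (k + 1))
      have h6 : ((2 ^ (k + 1) - 1 : ℕ) : ℤ) = 2 ^ (k + 1) - 1 := by
        push_cast [Nat.cast_sub (Nat.one_le_two_pow)]
        rfl
      have h7 : (((q * (2 * X + 1) + a * ((2 ^ (k + 1) - 1) * (2 * Y + 1))) % 2 ^ (k + 1) : ℕ) : ℤ)
          + (2 ^ (k + 1) : ℤ) * (((q * (2 * X + 1) + a * ((2 ^ (k + 1) - 1) * (2 * Y + 1)))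
            / 2 ^ (k + 1) : ℕ) : ℤ)
          = q * (2 * X + 1) + a * ((2 ^ (k + 1) - 1) * (2 * Y + 1)) := by
        rw [← h6]
        exact_mod_cast h5
      push_cast at h7 ⊢
      linarith
    · rw [abs_neg, abs_of_nonneg (by positivity)]
    · rw [dist'_eq]
      push_cast
      congr 1
      ring
  · rw [hs, cond_true] at h
    set q := e % 16777216 with hqdef
    set a := (e / 16777216) % 16777216 with hadef
    have h' : chkc cn cd q a (dist' (a * a) (t * (a * q) + q * q))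
      ((q * (2 * X + 1) + a * (2 * Y + 1)) % 2 ^ (k + 1)) (2 ^ (k + 1)) = true := h
    refine chkc_sound t cn cd q a _ _ (2 ^ (k + 1)) (a : ℤ)
      ((q * (2 * X + 1) + a * (2 * Y + 1)) / 2 ^ (k + 1) : ℕ)
      (2 * X + 1 : ℤ) (2 * Y + 1 : ℤ) hM hq ha ?_ (Nat.mod_lt _ hM).le ?_ ?_ h' x y hx hy
    · have h5 := Nat.mod_add_div (q * (2 * X + 1) + a * (2 * Y + 1)) (2 ^ (k + 1))
      have h7 : (((q * (2 * X + 1) + a * (2 * Y + 1)) % 2 ^ (k + 1) : ℕ) : ℤ)
          + (2 ^ (k + 1) : ℤ) * (((q * (2 * X + 1) + a * (2 * Y + 1)) / 2 ^ (k + 1) : ℕ) : ℤ)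
          = q * (2 * X + 1) + a * (2 * Y + 1) := by exact_mod_cast h5
      push_cast at h7 ⊢
      linarith
    · rw [abs_of_nonneg (by positivity)]
    · rw [dist'_eq]
      push_cast
      congr 1
      ring

lemma split_sound (t cn cd k X Y : ℕ) (h1 : BoxGood t cn cd (k + 1, 2 * X, 2 * Y))
    (h2 : BoxGood t cn cd (k + 1, 2 * X + 1, 2 * Y))
    (h3 : BoxGood t cn cd (k + 1, 2 * X, 2 * Y + 1))
    (h4 : BoxGood t cn cd (k + 1, 2 * X + 1, 2 * Y + 1)) : BoxGood t cn cd (k, X, Y) := by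
  intro x y hx1 hx2 hy1 hy2
  simp only at hx1 hx2 hy1 hy2
  have ex : x * 2 ^ (k + 1) = 2 * (x * 2 ^ k) := by ring
  have ey : y * 2 ^ (k + 1) = 2 * (y * 2 ^ k) := by ring
  rcases le_total (2 * (x * 2 ^ k)) (2 * X + 1) with hx | hx <;>
    rcases le_total (2 * (y * 2 ^ k)) (2 * Y + 1) with hy | hy
  · exact h1 x y (by simp only; push_cast; linarith) (by simp only; push_cast; linarith)
      (by simp only; push_cast; linarith) (by simp only; push_cast; linarith)
  · exact h3 x y (by simp only; push_cast; linarith) (by simp only; push_cast; linarith)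
      (by simp only; push_cast; linarith) (by simp only; push_cast; linarith)
  · exact h2 x y (by simp only; push_cast; linarith) (by simp only; push_cast; linarith)
      (by simp only; push_cast; linarith) (by simp only; push_cast; linarith)
  · exact h4 x y (by simp only; push_cast; linarith) (by simp only; push_cast; linarith)
      (by simp only; push_cast; linarith) (by simp only; push_cast; linarith)

lemma beqBox_sound (b b' : ℕ × ℕ × ℕ) (h : beqBox b b' = true) : b = b' := by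
  unfold beqBox at h
  rw [Bool.and_eq_true, Bool.and_eq_true] at h
  obtain ⟨h1, h2, h3⟩ := h
  exact Prod.ext (Nat.eq_of_beq_eq_true h1)
    (Prod.ext (Nat.eq_of_beq_eq_true h2) (Nat.eq_of_beq_eq_true h3))

lemma beqList_sound : ∀ (l l' : List (ℕ × ℕ × ℕ)), beqList l l' = true → l = l'
  | [], [], _ => rfl
  | a :: l, b :: l', h => by
    simp only [beqList, Bool.and_eq_true] at h
    rw [beqBox_sound a b h.1, beqList_sound l l' h.2]
  | [], _ :: _, h => by simp [beqList] at h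
  | _ :: _, [], h => by simp [beqList] at h

lemma run_sound (t cn cd : ℕ) : ∀ (n code : ℕ) (st st' : List (ℕ × ℕ × ℕ)),
    run t cn cd n code st st' = true →
    (∀ b ∈ st', BoxGood t cn cd b) → ∀ b ∈ st, BoxGood t cn cd b := by
  intro n
  induction n with
  | zero =>
    intro code st st' h h'
    simp only [run] at h
    rw [beqList_sound st st' h]
    exact h'
  | succ n ih =>
    intro code st st' h h'
    match st, h with
    | [], h => simp [run] at h
    | (k, X, Y) :: st, h =>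
      rw [run] at h
      split at h
      · have h2 := ih _ _ _ h h'
        have h3 : ∀ b ∈ st, BoxGood t cn cd b := fun b hb => h2 b (by simp [hb])
        have h4 : BoxGood t cn cd (k, X, Y) :=
          split_sound t cn cd k X Y (h2 _ (by simp)) (h2 _ (by simp))
            (h2 _ (by simp)) (h2 _ (by simp))
        intro b hb
        rcases List.mem_cons.1 hb with rfl | hb
        · exact h4
        · exact h3 b hb
      · rw [Bool.and_eq_true] at h
        have h2 := ih _ _ _ h.2 h'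
        intro b hb
        rcases List.mem_cons.1 hb with rfl | hb
        · exact chk_sound _ _ _ _ _ _ _ h.1
        · exact h2 b hb

end H736R5.MM
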