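import Pool.Agent.H736R5.MM.Final

/-!
Assembly for one metallic mean.
-/

namespace H736R5.MM

lemma ne_zero_of_det (t : ℕ) (ht : 1 ≤ t) (a b c d : ℤ)
    (hdet : a * d - b * c = 1 ∨ a * d - b * c = -1) : (c : ℝ) * mu t + d ≠ 0 := by
  intro h
  have h2 : (d : ℝ) ^ 2 + t * c * d - c ^ 2 = 0 := by
    have h0 : ((c : ℝ) * mu t + d) * (c * nu t + d) = 0 := by rw [h, zero_mul]
    have h1 := mu_add_nu t
    have h3 := mu_mul_nu t
    linear_combination h0 - (c : ℝ) * d * h1 - (c : ℝ) ^ 2 * h3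
  have h4 : d ^ 2 + t * c * d - c ^ 2 = 0 := by exact_mod_cast h2
  have hcop : IsCoprime c d := by
    rcases hdet with h | h
    · exact ⟨-b, a, by linarith⟩
    · exact ⟨b, -a, by linarith⟩
  have hd : IsUnit d := (hcop.symm.mul_right hcop.symm).isUnit_of_dvd' dvd_rfl
    ⟨d + t * c, by linear_combination -h4⟩
  have hc : IsUnit c := (hcop.mul_right hcop).isUnit_of_dvd' dvd_rfl
    ⟨c - t * d, by linear_combination h4⟩
  rcases Int.isUnit_iff.1 hd with rfl | rfl <;> rcases Int.isUnit_iff.1 hc with rfl | rfl <;>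
    (simp at h4; omega)

theorem of_cov (t cn cd : ℕ) (ht : 1 ≤ t) (hcd0 : 0 < cd) (hc1 : cn ≤ cd)
    (hc : (cn : ℝ) / cd + 1 / 1000000 < 1 / 24 * √((t : ℝ) ^ 2 + 4))
    (hcov : ∀ x y : ℝ, Good t cn cd x y) (a b c d : ℤ)
    (hdet : a * d - b * c = 1 ∨ a * d - b * c = -1) (β : ℝ) (N : ℕ) :
      ∃ q : ℕ, N ≤ q ∧ 0 < q ∧
        (q : ℝ) * |(q : ℝ) * ((a * mu t + b) / (c * mu t + d))
          - (round ((q : ℝ) * ((a * mu t + b) / (c * mu t + d))) : ℝ)|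
        * |(q : ℝ) * β - (round ((q : ℝ) * β) : ℝ)| < 1 / 24 := by
  have hcd := ne_zero_of_det t ht a b c d hdet
  obtain ⟨n, hn⟩ := pow_unbounded_of_one_lt ((2 : ℝ) ^ 25 * 1000 *
    ((1 + |(c : ℝ) * nu t + d|) * (1 + |(c : ℝ) * mu t + d|⁻¹)) * ((t + 3) * (N + 2)))
    (one_lt_mu t ht)
  exact step t cn cd ht hcd0 hc1 hc a b c d (a * d - b * c) hdet rfl _ _ rfl rfl (abs_pos.2 hcd)
    β N n hn.le (hcov _ _)

/-- for `t ≥ 12` nothing has to be covered. -/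
lemma good_large (t : ℕ) (x y : ℝ) : Good t 5068 10000 x y := by
  refine ⟨0, 1, round y, by norm_num, by norm_num, by norm_num, ?_⟩
  have h := abs_sub_round y
  have e : ((|(1 : ℤ) ^ 2 - t * (1 * 0) - 0 ^ 2| : ℤ) : ℝ) = 1 := by norm_num
  rw [e]
  have e2 : ((0 : ℤ) : ℝ) * x + ((1 : ℤ) : ℝ) * y - (round y : ℝ) = y - round y := by
    push_cast; ring
  rw [e2]
  push_cast
  linarith

lemma hc_large (t : ℕ) (ht : 12 ≤ t) :
    (((5068 : ℕ) : ℝ)) / ((10000 : ℕ) : ℝ) + 1 / 1000000 < 1 / 24 * √((t : ℝ) ^ 2 + 4) := by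
  have h : (12.165 : ℝ) < √((t : ℝ) ^ 2 + 4) := by
    rw [Real.lt_sqrt (by norm_num)]
    have : (12 : ℝ) ≤ t := by exact_mod_cast ht
    nlinarith
  push_cast
  linarith

lemma hc_small (t cn : ℕ) (h : (((cn : ℝ) + 1 / 4) / 10000) ^ 2 < (t : ℝ) ^ 2 + 4) :
    ((cn : ℝ)) / ((240000 : ℕ) : ℝ) + 1 / 1000000 < 1 / 24 * √((t : ℝ) ^ 2 + 4) := by
  have h1 : ((cn : ℝ) + 1 / 4) / 10000 < √((t : ℝ) ^ 2 + 4) := by
    rw [Real.lt_sqrt (by positivity)]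
    exact h
  push_cast
  linarith

end H736R5.MM
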