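import Pool.Agent.H736R5.MM.Core

/-!
From coverings of the torus to Littlewood's problem for the metallic means
`μ = (t + √(t^2 + 4)) / 2`.
-/

namespace H736R5.MM

open Real

lemma good_add (t cn cd : ℕ) (x y : ℝ) (i j : ℤ) (h : Good t cn cd x y) :
    Good t cn cd (x + i) (y + j) := by
  obtain ⟨q, p, z, hq, hp, hm, h⟩ := h
  refine ⟨q, p, z + q * i + p * j, hq, hp, hm, ?_⟩
  have : (q : ℝ) * (x + i) + p * (y + j) - ((z + q * i + p * j : ℤ) : ℝ) = q * x + p * y - z := by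
    push_cast; ring
  rwa [this]

lemma good_neg (t cn cd : ℕ) (x y : ℝ) (h : Good t cn cd (-x) (-y)) : Good t cn cd x y := by
  obtain ⟨q, p, z, hq, hp, hm, h⟩ := h
  refine ⟨q, p, -z, hq, hp, hm, ?_⟩
  have : (q : ℝ) * x + p * y - ((-z : ℤ) : ℝ) = -(q * -x + p * -y - z) := by
    push_cast; ring
  rwa [this, abs_neg]

lemma good_all (t cn cd : ℕ) (h0 : BoxGood t cn cd (1, 0, 0)) (h1 : BoxGood t cn cd (1, 0, 1))
    (x y : ℝ) : Good t cn cd x y := by
  have hbox : ∀ u v : ℝ, 0 ≤ u → u ≤ 1 / 2 → 0 ≤ v → v ≤ 1 → Good t cn cd u v := by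
    intro u v hu0 hu1 hv0 hv1
    rcases le_total v (1 / 2) with hv | hv
    · exact h0 u v (by norm_num; linarith) (by norm_num; linarith) (by norm_num; linarith)
        (by norm_num; linarith)
    · exact h1 u v (by norm_num; linarith) (by norm_num; linarith) (by norm_num; linarith)
        (by norm_num; linarith)
  have key : ∀ x y : ℝ, Int.fract x ≤ 1 / 2 → Good t cn cd x y := by
    intro x y hx
    have h := good_add t cn cd _ _ ⌊x⌋ ⌊y⌋ (hbox (Int.fract x) (Int.fract y) (Int.fract_nonneg x) hx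
      (Int.fract_nonneg y) (Int.fract_lt_one y).le)
    rwa [Int.fract_add_floor, Int.fract_add_floor] at h
  rcases le_or_gt (Int.fract x) (1 / 2) with hx | hx
  · exact key x y hx
  · apply good_neg
    apply key
    have hne : Int.fract x ≠ 0 := by
      intro h
      rw [h] at hx
      norm_num at hx
    have : Int.fract (-x) = 1 - Int.fract x := Int.fract_neg hne
    rw [this]
    linarith

/-- the metallic mean `μ_t = (t + √(t^2 + 4)) / 2`. -/
noncomputable def mu (t : ℕ) : ℝ := ((t : ℝ) + √((t : ℝ) ^ 2 + 4)) / 2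
/-- its conjugate. -/
noncomputable def nu (t : ℕ) : ℝ := ((t : ℝ) - √((t : ℝ) ^ 2 + 4)) / 2

lemma sq_sqrt' (t : ℕ) : √((t : ℝ) ^ 2 + 4) * √((t : ℝ) ^ 2 + 4) = (t : ℝ) ^ 2 + 4 :=
  Real.mul_self_sqrt (by positivity)

lemma mu_add_nu (t : ℕ) : mu t + nu t = t := by
  unfold mu nu; ring
lemma mu_sub_nu (t : ℕ) : mu t - nu t = √((t : ℝ) ^ 2 + 4) := by
  unfold mu nu; ring
lemma mu_mul_nu (t : ℕ) : mu t * nu t = -1 := by
  unfold mu nu
  have := sq_sqrt' t
  linear_combination (-1 / 4 : ℝ) * this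

lemma lt_sqrt' (t : ℕ) : (t : ℝ) < √((t : ℝ) ^ 2 + 4) := by
  rw [Real.lt_sqrt (by positivity)]
  linarith
lemma sqrt_lt'' (t : ℕ) : √((t : ℝ) ^ 2 + 4) < t + 3 := by
  rw [Real.sqrt_lt' (by positivity)]
  have : (0 : ℝ) ≤ t := by positivity
  nlinarith

lemma one_lt_mu (t : ℕ) (ht : 1 ≤ t) : 1 < mu t := by
  unfold mu
  have h1 : (1 : ℝ) ≤ t := by exact_mod_cast ht
  have := lt_sqrt' t
  linarith
lemma mu_pos (t : ℕ) (ht : 1 ≤ t) : 0 < mu t := by linarith [one_lt_mu t ht]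
lemma nu_neg (t : ℕ) : nu t < 0 := by
  unfold nu
  have := lt_sqrt' t
  linarith
lemma abs_nu (t : ℕ) (ht : 1 ≤ t) : |nu t| = (mu t)⁻¹ := by
  rw [abs_of_neg (nu_neg t)]
  have h := mu_mul_nu t
  have h0 := mu_pos t ht
  field_simp
  linarith

/-- `F_0 = 0`, `F_1 = 1`, `F_{n+2} = t F_{n+1} + F_n`. -/
def F (t : ℕ) : ℕ → ℕ
  | 0 => 0
  | 1 => 1
  | n + 2 => t * F t (n + 1) + F t n

lemma F_mu (t n : ℕ) : (F t (n + 1) : ℝ) - mu t * F t n = nu t ^ n := by
  induction n with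
  | zero => simp [F]
  | succ n ih =>
    have h1 := mu_add_nu t
    have h2 := mu_mul_nu t
    have h3 : F t (n + 1 + 1) = t * F t (n + 1) + F t n := rfl
    rw [pow_succ, ← ih, h3]
    push_cast
    linear_combination (-(F t (n + 1) : ℝ)) * h1 + (F t n : ℝ) * h2

lemma F_nu (t n : ℕ) : (F t (n + 1) : ℝ) - nu t * F t n = mu t ^ n := by
  induction n with
  | zero => simp [F]
  | succ n ih =>
    have h1 := mu_add_nu t
    have h2 := mu_mul_nu t
    have h3 : F t (n + 1 + 1) = t * F t (n + 1) + F t n := rfl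
    rw [pow_succ, ← ih, h3]
    push_cast
    linear_combination (-(F t (n + 1) : ℝ)) * h1 + (F t n : ℝ) * h2

lemma one_le_prod (t N : ℕ) : (1 : ℝ) ≤ ((t : ℝ) + 3) * (N + 2) := by
  have h1 : (0 : ℝ) ≤ t := by positivity
  have h2 : (0 : ℝ) ≤ N := by positivity
  nlinarith [mul_nonneg h1 h2]

lemma prod_bound (t N : ℕ) :
    ((t : ℝ) + 3) * (N + 1) + 1 ≤ ((t : ℝ) + 3) * ((N : ℝ) + 2) * 1000 := by
  have h1 : (0 : ℝ) ≤ t := by positivity
  have h2 : (0 : ℝ) ≤ N := by positivity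
  nlinarith [mul_nonneg h1 h2]

/-- main step: from `Good` for one pair attached to `n`, `β` and the matrix `(a, b; c, d)`. -/
lemma step (t cn cd : ℕ) (ht : 1 ≤ t) (hcd0 : 0 < cd) (hc1 : cn ≤ cd)
    (hc : (cn : ℝ) / cd + 1 / 1000000 < 1 / 24 * √((t : ℝ) ^ 2 + 4)) (a b c d D : ℤ) (hD : D = 1 ∨ D = -1) (hdet : a * d - b * c = D) (u v : ℝ)
    (hu : u = |(c : ℝ) * mu t + d|) (hv : v = |(c : ℝ) * nu t + d|) (hu0 : 0 < u)
    (β : ℝ) (N n : ℕ)
    (hn : (2 : ℝ) ^ 25 * 1000 * ((1 + v) * (1 + u⁻¹)) * ((t + 3) * (N + 2)) ≤ mu t ^ n)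
    (h : Good t cn cd (((D * (d * F t n + c * F t (n + 1)) : ℤ) : ℝ) * β)
      (((D * (d * F t (n + 1) + c * F t (n + 2)) : ℤ) : ℝ) * β)) :
    ∃ Q : ℕ, N ≤ Q ∧ 0 < Q ∧
      (Q : ℝ) * |(Q : ℝ) * ((a * mu t + b) / (c * mu t + d))
        - round ((Q : ℝ) * ((a * mu t + b) / (c * mu t + d)))|
      * |(Q : ℝ) * β - round ((Q : ℝ) * β)| < 1 / 24 := by
  obtain ⟨q, p, z, hq, hp, hm, h⟩ := h
  set q' : ℤ := q * F t n + p * F t (n + 1) with hq'
  set p' : ℤ := q * F t (n + 1) + p * F t (n + 2) with hp'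
  set Q : ℤ := D * (d * q' + c * p') with hQ
  set P : ℤ := D * (b * q' + a * p') with hP
  set A : ℝ := q + p * nu t with hA
  set A' : ℝ := q + p * mu t with hA'
  set α : ℝ := (a * mu t + b) / (c * mu t + d) with hα
  have hDD : D * D = 1 := by rcases hD with h | h <;> rw [h] <;> norm_num
  have hDDr : (D : ℝ) * D = 1 := by exact_mod_cast hDD
  have hdetr : (a : ℝ) * d - b * c = D := by exact_mod_cast hdet
  have hcd : (c : ℝ) * mu t + d ≠ 0 := by
    intro h0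
    rw [h0, abs_zero] at hu
    linarith
  have f1 : (F t (n + 1) : ℝ) - mu t * F t n = nu t ^ n :=
    F_mu t n
  have f2 : (F t (n + 2) : ℝ) - mu t * F t (n + 1) = nu t ^ (n + 1) :=
    F_mu t (n + 1)
  have g1 : (F t (n + 1) : ℝ) - nu t * F t n = mu t ^ n :=
    F_nu t n
  have g2 : (F t (n + 2) : ℝ) - nu t * F t (n + 1) = mu t ^ (n + 1) :=
    F_nu t (n + 1)
  have e1 : (p' : ℝ) - q' * mu t = nu t ^ n * A := by
    rw [hp', hq', hA]
    push_cast
    calc _ = (q : ℝ) * ((F t (n + 1) : ℝ) - mu t * F t n)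
          + p * ((F t (n + 2) : ℝ) - mu t * F t (n + 1)) := by ring
      _ = _ := by rw [f1, f2]; ring
  have e2 : (p' : ℝ) - q' * nu t = mu t ^ n * A' := by
    rw [hp', hq', hA']
    push_cast
    calc _ = (q : ℝ) * ((F t (n + 1) : ℝ) - nu t * F t n)
          + p * ((F t (n + 2) : ℝ) - nu t * F t (n + 1)) := by ring
      _ = _ := by rw [g1, g2]; ring
  have hQr : (Q : ℝ) = D * (d * q' + c * p') := by rw [hQ]; push_cast; ring
  have hPr : (P : ℝ) = D * (b * q' + a * p') := by rw [hP]; push_cast; ring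
  -- `P - Q α`
  have e5 : ((P : ℝ) - Q * α) * (c * mu t + d) = nu t ^ n * A := by
    rw [hα, sub_mul, mul_assoc, div_mul_cancel₀ _ hcd, ← e1, hQr, hPr]
    linear_combination (((p' : ℝ) - q' * mu t) * D) * hdetr
      + ((p' : ℝ) - q' * mu t) * hDDr
  -- `Q √((t : ℝ) ^ 2 + 4)`
  have e3 : (Q : ℝ) * √((t : ℝ) ^ 2 + 4) = D * (mu t ^ n * A' * (c * mu t + d)
      - nu t ^ n * A * (c * nu t + d)) := by
    rw [← e1, ← e2, ← mu_sub_nu, hQr]
    ring
  set m : ℝ := ((|p ^ 2 - t * (p * q) - q ^ 2| : ℤ) : ℝ) with hmdef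
  have hm1 : (1 : ℝ) ≤ m := by
    rw [hmdef]
    exact_mod_cast Int.one_le_abs hm
  have e4 : |A| * |A'| = m := by
    rw [← abs_mul, hmdef, hA, hA']
    push_cast
    rw [← abs_neg]
    congr 1
    have h1 := mu_add_nu t
    have h2 := mu_mul_nu t
    linear_combination (-(q : ℝ) * p) * h1 - (p : ℝ) ^ 2 * h2
  have hqr : |(q : ℝ)| ≤ 16777216 := by exact_mod_cast hq
  have hpr : |(p : ℝ)| ≤ 16777216 := by exact_mod_cast hp
  have hc1' : |nu t| ≤ 1 := by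
    rw [abs_nu t ht]
    exact inv_le_one_of_one_le₀ (one_lt_mu t ht).le
  have hA2 : |A| ≤ 2 ^ 25 := by
    calc |A| ≤ |(q : ℝ)| + |(p : ℝ) * nu t| := abs_add_le _ _
      _ = |(q : ℝ)| + |(p : ℝ)| * |nu t| := by rw [abs_mul]
      _ ≤ 16777216 + 16777216 * 1 := by gcongr
      _ = 2 ^ 25 := by norm_num
  have hφ : (0 : ℝ) < mu t ^ n := pow_pos (mu_pos t ht) n
  have hψ : |nu t ^ n| = (mu t ^ n)⁻¹ := by
    rw [abs_pow, abs_nu t ht, inv_pow]
  have hN0 : (0 : ℝ) ≤ N := by positivity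
  have hv0 : 0 ≤ v := by rw [hv]; exact abs_nonneg _
  have hui : 0 < u⁻¹ := inv_pos.2 hu0
  set κ : ℝ := (1 + v) * (1 + u⁻¹) with hκ
  have hκ1 : 1 ≤ κ := by
    rw [hκ]
    have := mul_le_mul (show (1 : ℝ) ≤ 1 + v by linarith) (show (1 : ℝ) ≤ 1 + u⁻¹ by linarith)
      (by norm_num) (by linarith)
    linarith
  have hκ0 : 0 < κ := by linarith
  have hκv : v ≤ κ := by
    rw [hκ]
    have : (1 + v) * 1 ≤ (1 + v) * (1 + u⁻¹) := by gcongr; linarith
    linarith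
  have hκu : 1 ≤ κ * u := by
    have : (1 : ℝ) * u⁻¹ ≤ (1 + v) * (1 + u⁻¹) := by gcongr <;> linarith
    calc (1 : ℝ) = u⁻¹ * u := (inv_mul_cancel₀ hu0.ne').symm
      _ ≤ κ * u := by
        rw [hκ]
        gcongr
        linarith
  have hκvu : v ≤ κ * u := by
    have h1 : v * u⁻¹ ≤ (1 + v) * (1 + u⁻¹) := by gcongr <;> linarith
    calc v = (v * u⁻¹) * u := by rw [mul_assoc, inv_mul_cancel₀ hu0.ne', mul_one]
      _ ≤ κ * u := by rw [hκ]; gcongr
  -- smallness of `η = |ψ^n A|`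
  have hη : |nu t ^ n * A| * (1000 * κ) ≤ 1 := by
    rw [abs_mul, hψ]
    have h1 : (2 : ℝ) ^ 25 * 1000 * κ ≤ 2 ^ 25 * 1000 * κ * ((t + 3) * (N + 2)) :=
      le_mul_of_one_le_right (by positivity) (one_le_prod t N)
    have h2 : (2 : ℝ) ^ 25 * 1000 * κ ≤ mu t ^ n := h1.trans hn
    calc (mu t ^ n)⁻¹ * |A| * (1000 * κ)
        ≤ (mu t ^ n)⁻¹ * 2 ^ 25 * (1000 * κ) := by gcongr
      _ = (mu t ^ n)⁻¹ * (2 ^ 25 * 1000 * κ) := by ring
      _ ≤ (mu t ^ n)⁻¹ * mu t ^ n := by gcongr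
      _ = 1 := inv_mul_cancel₀ hφ.ne'
  have hη0 : 0 ≤ |nu t ^ n * A| := abs_nonneg _
  -- `|A'|` is not small
  have hApos : 0 < |A| := by
    rcases (abs_nonneg A).eq_or_lt with h0 | h0
    · rw [← h0, zero_mul] at e4; linarith
    · exact h0
  have hA'1 : 1 ≤ 2 ^ 25 * |A'| := by
    calc (1 : ℝ) ≤ |A| * |A'| := by rw [e4]; exact hm1
      _ ≤ 2 ^ 25 * |A'| := by gcongr
  have hDabs : |(D : ℝ)| = 1 := by
    rcases hD with h | h <;> rw [h] <;> norm_num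
  have hQabs : |(Q : ℝ)| * √((t : ℝ) ^ 2 + 4) = |mu t ^ n * A' * (c * mu t + d)
      - nu t ^ n * A * (c * nu t + d)| := by
    rw [← abs_of_nonneg (Real.sqrt_nonneg ((t : ℝ) ^ 2 + 4)), ← abs_mul, e3, abs_mul, hDabs, one_mul]
  have hT1 : |mu t ^ n * A' * (c * mu t + d)| = mu t ^ n * |A'| * u := by
    rw [abs_mul, abs_mul, abs_of_pos hφ, hu]
  have hT2 : |nu t ^ n * A * (c * nu t + d)| = |nu t ^ n * A| * v := by
    rw [abs_mul (nu t ^ n * A), hv]
  have hηv : |nu t ^ n * A| * v ≤ 1 := by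
    calc |nu t ^ n * A| * v ≤ |nu t ^ n * A| * (1000 * κ) := by
          gcongr
          linarith
      _ ≤ 1 := hη
  have hQbig : ((t : ℝ) + 3) * (N + 1) ≤ |(Q : ℝ)| * √((t : ℝ) ^ 2 + 4) := by
    rw [hQabs]
    have h1 : |mu t ^ n * A' * (c * mu t + d)|
        - |nu t ^ n * A * (c * nu t + d)| ≤
        |mu t ^ n * A' * (c * mu t + d)
          - nu t ^ n * A * (c * nu t + d)| := abs_sub_abs_le_abs_sub _ _
    rw [hT1, hT2] at h1
    have h3 : ((t : ℝ) + 3) * ((N : ℝ) + 2) * 1000 ≤ mu t ^ n * |A'| * u := by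
      calc ((t : ℝ) + 3) * ((N : ℝ) + 2) * 1000 ≤ (((t : ℝ) + 3) * ((N : ℝ) + 2) * 1000) * (2 ^ 25 * |A'|) :=
            le_mul_of_one_le_right (by positivity) hA'1
        _ ≤ (((t : ℝ) + 3) * ((N : ℝ) + 2) * 1000) * (2 ^ 25 * |A'|) * (κ * u) :=
            le_mul_of_one_le_right (by positivity) hκu
        _ = (2 ^ 25 * 1000 * κ * ((t + 3) * (N + 2))) * |A'| * u := by ring
        _ ≤ mu t ^ n * |A'| * u := by gcongr
    have h4 := prod_bound t N
    linarith only [h1, h3, h4, hηv]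
  have h5 : √((t : ℝ) ^ 2 + 4) < t + 3 := sqrt_lt'' t
  have hQN : (N : ℝ) + 1 ≤ |(Q : ℝ)| := by
    by_contra hlt
    push Not at hlt
    have h51 : |(Q : ℝ)| * √((t : ℝ) ^ 2 + 4) ≤ |(Q : ℝ)| * (t + 3) := by gcongr
    have h52 : |(Q : ℝ)| * (t + 3) < ((N : ℝ) + 1) * (t + 3) :=
      mul_lt_mul_of_pos_right hlt (by positivity)
    have h53 : ((t : ℝ) + 3) * (N + 1) = ((N : ℝ) + 1) * (t + 3) := by ring
    linarith only [h51, h52, h53, hQbig]
  have hcast : ((Q.natAbs : ℕ) : ℝ) = |(Q : ℝ)| := by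
    rw [Nat.cast_natAbs]; push_cast; rfl
  refine ⟨Q.natAbs, ?_, ?_, ?_⟩
  · have : (N : ℝ) ≤ (Q.natAbs : ℝ) := by rw [hcast]; linarith
    exact_mod_cast this
  · have : (0 : ℝ) < (Q.natAbs : ℝ) := by rw [hcast]; linarith
    exact_mod_cast this
  · -- distances
    have hd : ∀ (γ : ℝ) (w : ℤ), |((Q.natAbs : ℕ) : ℝ) * γ - round (((Q.natAbs : ℕ) : ℝ) * γ)|
        ≤ |(Q : ℝ) * γ - w| := by
      intro γ w
      rw [hcast]
      rcases abs_choice (Q : ℝ) with h1 | h1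
      · rw [h1]; exact round_le _ w
      · rw [h1]
        refine (round_le _ (-w)).trans (le_of_eq ?_)
        rw [← abs_neg]
        congr 1
        push_cast
        ring
    have hd1 := hd α P
    have hd2 := hd β z
    have h6 : |(Q : ℝ) * α - P| * u = |nu t ^ n * A| := by
      rw [← e5, abs_mul, hu, abs_sub_comm]
    have h7 : (Q : ℝ) * β - z
        = (q : ℝ) * (((D * (d * F t n + c * F t (n + 1)) : ℤ) : ℝ) * β)
        + p * (((D * (d * F t (n + 1) + c * F t (n + 2)) : ℤ) : ℝ) * β) - z := by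
      rw [hQr, hq', hp']; push_cast; ring
    rw [← h7] at h
    set δ : ℝ := |(Q : ℝ) * β - z| with hδ
    set η : ℝ := |nu t ^ n * A| with hηdef
    set ρ : ℝ := |(Q : ℝ) * α - P| with hρ
    have hρ0 : 0 ≤ ρ := abs_nonneg _
    have hδ0 : 0 ≤ δ := abs_nonneg _
    have hcdr : (0 : ℝ) < cd := by exact_mod_cast hcd0
    have hmδ : m * δ < cn / cd := by
      rw [lt_div_iff₀ hcdr]
      exact h
    have hcn1 : (cn : ℝ) / cd ≤ 1 := by
      rw [div_le_one hcdr]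
      exact_mod_cast hc1
    have hδ1 : δ ≤ 1 := by
      have : δ ≤ m * δ := le_mul_of_one_le_left hδ0 hm1
      linarith only [this, hmδ, hcn1]
    have h8 : |(Q : ℝ)| * √((t : ℝ) ^ 2 + 4) ≤ mu t ^ n * |A'| * u + η * v := by
      rw [hQabs, ← hT1, ← hT2]
      exact abs_sub _ _
    have h9 : mu t ^ n * |A'| * η = m := by
      rw [hηdef, abs_mul, hψ, ← e4]
      field_simp
    -- `v ρ ≤ κ u ρ = κ η`
    have h15 : η * v * ρ ≤ 1 / 1000000 := by
      have h16 : v * ρ ≤ κ * η := by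
        calc v * ρ ≤ (κ * u) * ρ := by gcongr
          _ = κ * (ρ * u) := by ring
          _ = κ * η := by rw [h6]
      have h17 : κ * η ≤ 1 / 1000 := by linarith
      have h18 : η ≤ 1 / 1000 := by
        have : η * 1 ≤ η * κ := by gcongr
        linarith
      calc η * v * ρ = η * (v * ρ) := by ring
        _ ≤ (1 / 1000) * (1 / 1000) := by gcongr; exact h16.trans h17
        _ = 1 / 1000000 := by norm_num
    have h10 : |(Q : ℝ)| * ρ * δ * √((t : ℝ) ^ 2 + 4) ≤ (m + 1 / 1000000) * δ := by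
      calc |(Q : ℝ)| * ρ * δ * √((t : ℝ) ^ 2 + 4) = (|(Q : ℝ)| * √((t : ℝ) ^ 2 + 4)) * ρ * δ := by ring
        _ ≤ (mu t ^ n * |A'| * u + η * v) * ρ * δ := by gcongr
        _ = (mu t ^ n * |A'| * (ρ * u) + η * v * ρ) * δ := by ring
        _ = (m + η * v * ρ) * δ := by rw [h6, h9]
        _ ≤ (m + 1 / 1000000) * δ := by gcongr
    have h11 : (m + 1 / 1000000) * δ < cn / cd + 1 / 1000000 := by
      have h13 : (m + 1 / 1000000) * δ = m * δ + 1 / 1000000 * δ := by ring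
      rw [h13]
      linarith only [hmδ, hδ1]
    have h12 : |(Q : ℝ)| * ρ * δ < 1 / 24 := by
      by_contra hcon
      push Not at hcon
      have : (1 : ℝ) / 24 * √((t : ℝ) ^ 2 + 4) ≤ |(Q : ℝ)| * ρ * δ * √((t : ℝ) ^ 2 + 4) := by gcongr
      linarith only [this, h10, h11, hc]
    refine lt_of_le_of_lt ?_ h12
    rw [hcast] at hd1 hd2 ⊢
    gcongr

end H736R5.MM
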